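import Pool.Agent.Lib.MP_0d2ecd_gt.Baire

set_option autoImplicit false

open Set Cardinal TopologicalSpace

universe u

/-- Characterisation of the perfectly normal non-archimedean spaces with a point-countable base.
Moreover their closed nowhere dense subspaces are metrizable. -/
theorem Pool.Agent.Results.MP_0d2ecd_gt.BaireDichotomy.result
    (X : Type u) [TopologicalSpace X] [T6Space X]
    (B : Set (Set X)) (hB : IsTopologicalBasis B)
    (hrank : ∀ p : X, ∀ U ∈ B, ∀ V ∈ B, p ∈ U → p ∈ V → U ⊆ V ∨ V ⊆ U) :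
    List.TFAE [
      -- a point-countable base
      ∃ N : Set (Set X), IsTopologicalBasis N ∧ ∀ x : X, {U ∈ N | x ∈ U}.Countable,
      -- a dense union of `ℵ₁` discrete subspaces
      ∃ 𝓓 : Set (Set X), #𝓓 ≤ ℵ_ 1 ∧ (∀ D ∈ 𝓓, DiscreteTopology D) ∧ Dense (⋃₀ 𝓓),
      -- `ℵ₁` nowhere dense sets whose union with the set of isolated points is dense
      ∃ 𝓔 : Set (Set X), #𝓔 ≤ ℵ_ 1 ∧ (∀ E ∈ 𝓔, IsNowhereDense E) ∧
        Dense ({x : X | IsOpen ({x} : Set X)} ∪ ⋃₀ 𝓔),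
      -- no generalised `κ`-Souslin part
      ¬ ∃ (W : Set X) (κ : Cardinal.{u}), IsClopen W ∧ W.Nonempty ∧ κ.IsRegular ∧ ℵ_ 2 ≤ κ ∧
        (∀ 𝓔 : Set (Set X), #𝓔 < κ → (∀ E ∈ 𝓔, E ⊆ W ∧ IsNowhereDense E) →
          IsNowhereDense (⋃₀ 𝓔)) ∧
        ∃ F : κ.ord.ToType → Set X, Monotone F ∧
          (∀ i, IsClosed (F i) ∧ IsNowhereDense (F i)) ∧ ⋃ i, F i = W] ∧
    ∀ K : Set X, IsClosed K → IsNowhereDense K → MetrizableSpace K := by
  obtain ⟨h1, h2, h3, h4⟩ := Pool.Agent.Lib.MP_0d2ecd_gt.baire_dichotomy B hB hrank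
  refine ⟨?_, h4⟩
  tfae_have 1 ↔ 2 := h1
  tfae_have 1 ↔ 3 := h2
  tfae_have 1 ↔ 4 := (not_iff_comm.1 h3).symm
  tfae_finish
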