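import Pool.Agent.Lib.MP_0d2ecd_gt.IdealPos
import Pool.Agent.Lib.MP_0d2ecd_gt.CoherentTree

/-!
# Point-countable bases in perfectly normal non-archimedean spaces: both answers are consistent
-/

set_option autoImplicit false

open Set Cardinal TopologicalSpace

universe u

namespace Pool.Agent.Results.MP_0d2ecd_gt.Independence

open Pool.Agent.Lib.MP_0d2ecd_gt

/-- the space has a point-countable base -/
def HasPointCountableBase (X : Type u) [TopologicalSpace X] : Prop :=
  ∃ N : Set (Set X), IsTopologicalBasis N ∧ ∀ x : X, {U ∈ N | x ∈ U}.Countable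

/-- `B` is a base of rank one: the members of `B` containing a given point form a chain -/
def IsRankOneBase {X : Type u} [TopologicalSpace X] (B : Set (Set X)) : Prop :=
  IsTopologicalBasis B ∧ ∀ p, ∀ U ∈ B, ∀ V ∈ B, p ∈ U → p ∈ V → U ⊆ V ∨ V ⊆ U

/-- `B` is a tree base: a base of nonempty sets, any two of which are comparable or disjoint, such
that the supersets of each member of `B` are well-ordered by reverse inclusion -/
def IsTreeBase {X : Type u} [TopologicalSpace X] (B : Set (Set X)) : Prop :=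
  IsTopologicalBasis B ∧ ∅ ∉ B ∧ (∀ U ∈ B, ∀ V ∈ B, U ⊆ V ∨ V ⊆ U ∨ Disjoint U V) ∧
    ∀ U ∈ B, ∀ S ⊆ B, S.Nonempty → (∀ W ∈ S, U ⊆ W) → ∃ W ∈ S, ∀ W' ∈ S, W' ⊆ W

theorem result :
    ((∃ T : Set (Σ β : W2, (Iio β → Bool)), IsCoherentSouslinTree T) →
      ∃ (X : Type) (_ : TopologicalSpace X) (B : Set (Set X)),
        T6Space X ∧ IsTreeBase B ∧ IsRankOneBase B ∧ ¬ HasPointCountableBase X) ∧
    ∀ (X : Type u), HasSigmaClosedIdeal X → ∀ (_ : TopologicalSpace X) (B : Set (Set X)),
      T6Space X → IsRankOneBase B → HasPointCountableBase X := by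
  constructor
  · rintro ⟨T, hT⟩
    obtain ⟨X, hX, hX6, ⟨B, h1, h2, h3, h4⟩, hno⟩ := negative hT
    refine ⟨X, hX, B, hX6, ⟨h1, h2, h3, h4⟩, ⟨h1, ?_⟩, hno⟩
    intro p U hU V hV hpU hpV
    rcases h3 U hU V hV with h | h | h
    · exact Or.inl h
    · exact Or.inr h
    · exact absurd hpV (disjoint_left.1 h hpU)
  · intro X hI hX B hX6 hB
    exact positive hI B hB.1 hB.2

end Pool.Agent.Results.MP_0d2ecd_gt.Independence
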